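import Pool.Agent.H9.DM

namespace Pool.Agent.Results.MP_161132_co.Full

open Pool.Agent.H9.DM

theorem result : ∀ k ≥ 2, ∃ N : ℕ, ∀ n ≥ N, h n k ≤ 4 * n ∧
    ∃ (V : Type) (_ : Fintype V) (G : SimpleGraph V), Fintype.card V = n ∧ Sat k G := by
  intro k hk
  obtain ⟨t, rfl⟩ : ∃ t, k = t + 2 := ⟨k - 2, by omega⟩
  exact final t

end Pool.Agent.Results.MP_161132_co.Full
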